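import Pool.Agent.Lib.MP_d0f9e0_co.FA45.FromG

/-!
# Final assembly for S11585, layer 3: the quasi-periodic form on `ℤ²`
-/

set_option autoImplicit false

namespace Pool.Agent.MP_d0f9e0_co.FA45

open Finset

section
variable {d : ℕ} [NeZero d]

/-- the periodic function attached to a quasi-periodic one -/
noncomputable def Gper (d : ℕ) (τ : ℂ) (F : ℤ → ℤ → ℂ) (a b : ZMod d) : ℂ :=
  (-1) ^ ((a.val : ℤ) + b.val) * τ ^ ((a.val : ℤ) * b.val) * F a.val b.val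

theorem tau_pow_d {τ : ℂ} (hτ : IsPrimitiveRoot τ (2 * d)) : τ ^ d = -1 := by
  have hd : 0 < d := Nat.pos_of_ne_zero (NeZero.ne d)
  have h2 : (τ ^ d) ^ 2 = 1 := by
    rw [← pow_mul, mul_comm]
    exact hτ.pow_eq_one
  have h1 : τ ^ d ≠ 1 := hτ.pow_ne_one_of_pos_of_lt (by omega) (by omega)
  rcases sq_eq_one_iff.1 h2 with h | h
  · exact absurd h h1
  · exact h

theorem tau_ne_zero {τ : ℂ} (hτ : IsPrimitiveRoot τ (2 * d)) : τ ≠ 0 := by
  have hd : 0 < d := Nat.pos_of_ne_zero (NeZero.ne d)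
  exact hτ.ne_zero (by omega)

theorem tau_zpow_d {τ : ℂ} (hτ : IsPrimitiveRoot τ (2 * d)) (n : ℤ) :
    τ ^ ((d : ℤ) * n) = (-1) ^ n := by
  rw [zpow_mul, zpow_natCast, tau_pow_d hτ]

/-- the additive character `x ↦ τ^(2x)` -/
noncomputable def chiT {τ : ℂ} (hτ : IsPrimitiveRoot τ (2 * d)) : AddChar (ZMod d) ℂ :=
  AddChar.zmodChar d (ζ := τ ^ 2) (by rw [← pow_mul]; exact hτ.pow_eq_one)

theorem chiT_primitive {τ : ℂ} (hτ : IsPrimitiveRoot τ (2 * d)) : (chiT hτ).IsPrimitive := by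
  have hd : 0 < d := Nat.pos_of_ne_zero (NeZero.ne d)
  have h : IsPrimitiveRoot (τ ^ 2) d := hτ.pow (by omega) rfl
  exact AddChar.zmodChar_primitive_of_primitive_root d h

theorem chiT_intCast {τ : ℂ} (hτ : IsPrimitiveRoot τ (2 * d)) (n : ℤ) :
    chiT hτ (n : ZMod d) = τ ^ (2 * n) := by
  have h1 : (n : ZMod d) = n • (1 : ZMod d) := by
    rw [zsmul_eq_mul, mul_one]
  rw [h1, AddChar.map_zsmul_eq_zpow]
  have h2 : chiT hτ (1 : ZMod d) = τ ^ 2 := by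
    have := AddChar.zmodChar_apply' (n := d) (ζ := τ ^ 2)
      (by rw [← pow_mul]; exact hτ.pow_eq_one) 1
    rw [pow_one, Nat.cast_one] at this
    exact this
  rw [h2, zpow_mul]
  norm_cast

/-- the quasi-periodicity of `F` -/
def QP (d : ℕ) (F : ℤ → ℤ → ℂ) : Prop :=
  ∀ k1 k2 v1 v2 : ℤ, ¬ ((d : ℤ) ∣ k1 ∧ (d : ℤ) ∣ k2) →
    F (k1 + d * v1) (k2 + d * v2)
      = (-1) ^ (k1 * v2 + k2 * v1 + d * (v1 ^ 2 + v1 * v2 + v2 ^ 2)) * F k1 k2

theorem Gper_cast {τ : ℂ} (hτ : IsPrimitiveRoot τ (2 * d)) {F : ℤ → ℤ → ℂ} (hqp : QP d F)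
    (k1 k2 : ℤ) (hk : ¬ ((d : ℤ) ∣ k1 ∧ (d : ℤ) ∣ k2)) :
    Gper d τ F (k1 : ZMod d) (k2 : ZMod d) = (-1) ^ (k1 + k2) * τ ^ (k1 * k2) * F k1 k2 := by
  have hτ0 : τ ≠ 0 := tau_ne_zero hτ
  have hm : (-1 : ℂ) ≠ 0 := by norm_num
  rw [Gper, ZMod.val_intCast, ZMod.val_intCast]
  set A : ℤ := k1 % d with hA
  set B : ℤ := k2 % d with hB
  set v1 : ℤ := k1 / d with hv1
  set v2 : ℤ := k2 / d with hv2
  have e1 : k1 = A + d * v1 := (Int.emod_add_mul_ediv k1 d).symm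
  have e2 : k2 = B + d * v2 := (Int.emod_add_mul_ediv k2 d).symm
  have hAB : ¬ ((d : ℤ) ∣ A ∧ (d : ℤ) ∣ B) := by
    rintro ⟨h1, h2⟩
    exact hk ⟨by rw [e1]; exact dvd_add h1 (dvd_mul_right _ _),
      by rw [e2]; exact dvd_add h2 (dvd_mul_right _ _)⟩
  rw [e1, e2, hqp A B v1 v2 hAB]
  have e3 : (A + d * v1) * (B + d * v2) = A * B + d * (A * v2 + B * v1 + d * (v1 * v2)) := by ring
  rw [e3, zpow_add₀ hτ0, tau_zpow_d hτ]
  have e4 : (-1 : ℂ) ^ (A + B) = (-1 : ℂ) ^ (A + d * v1 + (B + d * v2)) *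
      (-1) ^ (A * v2 + B * v1 + d * (v1 * v2)) *
      (-1) ^ (A * v2 + B * v1 + d * (v1 ^ 2 + v1 * v2 + v2 ^ 2)) := by
    rw [← zpow_add₀ hm, ← zpow_add₀ hm]
    have e5 : A + d * v1 + (B + d * v2) + (A * v2 + B * v1 + d * (v1 * v2)) +
        (A * v2 + B * v1 + d * (v1 ^ 2 + v1 * v2 + v2 ^ 2))
        = (A + B) + (2 * (A * v2 + B * v1 + d * (v1 * v2)) +
            d * (v1 * (v1 + 1) + v2 * (v2 + 1))) := by ring
    have hev : Even (2 * (A * v2 + B * v1 + d * (v1 * v2)) +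
        (d : ℤ) * (v1 * (v1 + 1) + v2 * (v2 + 1))) := by
      refine Even.add (even_two_mul _) ?_
      exact (Even.add (Int.even_mul_succ_self v1) (Int.even_mul_succ_self v2)).mul_left _
    rw [e5, zpow_add₀ hm (A + B), hev.neg_one_zpow, mul_one]
  rw [e4]
  ring

theorem not_dvd_of_ne {a b : ZMod d} (h : (a, b) ≠ (0, 0)) :
    ¬ ((d : ℤ) ∣ (a.val : ℤ) ∧ (d : ℤ) ∣ (b.val : ℤ)) := by
  rintro ⟨h1, h2⟩
  apply h
  rw [← ZMod.intCast_zmod_eq_zero_iff_dvd] at h1 h2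
  rw [Int.cast_natCast, ZMod.natCast_zmod_val] at h1 h2
  rw [h1, h2]

/-- **Layer 3.** The quasi-periodic twisted convolution system with unimodular values gives a SIC. -/
theorem SIC_of_F {τ : ℂ} (hτ : IsPrimitiveRoot τ (2 * d)) (s : ℝ) (hs : s ^ 2 = d + 1)
    (F : ℤ → ℤ → ℂ) (hqp : QP d F)
    (habs : ∀ k1 k2 : ℤ, ¬ ((d : ℤ) ∣ k1 ∧ (d : ℤ) ∣ k2) → ‖F k1 k2‖ = 1)
    (hinv : ∀ k1 k2 : ℤ, ¬ ((d : ℤ) ∣ k1 ∧ (d : ℤ) ∣ k2) → F k1 k2 * F (-k1) (-k2) = 1)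
    (hconv : ∀ l ∈ (range d ×ˢ range d).erase (0, 0),
      ∑ k ∈ ((range d ×ˢ range d).erase (0, 0)).erase l,
        τ ^ (-((k.1 : ℤ) * l.2 - k.2 * l.1)) * (F k.1 k.2 * F (l.1 - k.1) (l.2 - k.2))
      = -(((d : ℂ) - 2) * (s : ℂ)) * F l.1 l.2) : SIC d := by
  classical
  have hd : 0 < d := Nat.pos_of_ne_zero (NeZero.ne d)
  have hτ0 : τ ≠ 0 := tau_ne_zero hτ
  have hm : (-1 : ℂ) ≠ 0 := by norm_num
  have hτn : ‖τ‖ = 1 := hτ.norm'_eq_one (by omega)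
  refine SIC_of_G' (chiT hτ) (chiT_primitive hτ) s hs (Gper d τ F) ?_ ?_ ?_
  · intro a b hab
    rw [Gper, norm_mul, norm_mul, norm_zpow, norm_zpow, norm_neg, norm_one, hτn, one_zpow,
      one_zpow, habs _ _ (not_dvd_of_ne hab)]
    norm_num
  · intro a b hab
    have hn := not_dvd_of_ne hab
    have hn' : ¬ ((d : ℤ) ∣ -(a.val : ℤ) ∧ (d : ℤ) ∣ -(b.val : ℤ)) := by
      rwa [dvd_neg, dvd_neg]
    have h1 : Gper d τ F (-a) (-b) = (-1) ^ (-(a.val : ℤ) + -(b.val : ℤ)) *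
        τ ^ (-(a.val : ℤ) * -(b.val : ℤ)) * F (-(a.val : ℤ)) (-(b.val : ℤ)) := by
      rw [← Gper_cast hτ hqp _ _ hn']
      simp
    rw [h1, Gper]
    have h2 : chiT hτ (a * b) = τ ^ (2 * ((a.val : ℤ) * b.val)) := by
      rw [← chiT_intCast hτ]
      simp
    rw [h2]
    have h3 : (-1 : ℂ) ^ ((a.val : ℤ) + b.val) * (-1) ^ (-(a.val : ℤ) + -(b.val : ℤ)) = 1 := by
      rw [← zpow_add₀ hm]
      have : (a.val : ℤ) + b.val + (-(a.val : ℤ) + -(b.val : ℤ)) = 0 := by ring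
      rw [this, zpow_zero]
    have h4 : τ ^ ((a.val : ℤ) * b.val) * τ ^ (-(a.val : ℤ) * -(b.val : ℤ))
        = τ ^ (2 * ((a.val : ℤ) * b.val)) := by
      rw [← zpow_add₀ hτ0]
      congr 1
      ring
    have h5 := hinv _ _ hn
    calc (-1 : ℂ) ^ ((a.val : ℤ) + b.val) * τ ^ ((a.val : ℤ) * b.val) * F a.val b.val *
          ((-1) ^ (-(a.val : ℤ) + -(b.val : ℤ)) * τ ^ (-(a.val : ℤ) * -(b.val : ℤ)) *
            F (-(a.val : ℤ)) (-(b.val : ℤ)))
        = ((-1 : ℂ) ^ ((a.val : ℤ) + b.val) * (-1) ^ (-(a.val : ℤ) + -(b.val : ℤ))) *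
          (τ ^ ((a.val : ℤ) * b.val) * τ ^ (-(a.val : ℤ) * -(b.val : ℤ))) *
          (F a.val b.val * F (-(a.val : ℤ)) (-(b.val : ℤ))) := by ring
      _ = _ := by rw [h3, h4, h5]; ring
  · rintro ⟨l1, l2⟩ hl
    have hl' : (l1, l2) ≠ (0, 0) := hl
    have hln := not_dvd_of_ne hl'
    have hmem : (l1.val, l2.val) ∈ (range d ×ˢ range d).erase (0, 0) := by
      rw [mem_erase, mem_product, mem_range, mem_range]
      refine ⟨?_, ZMod.val_lt _, ZMod.val_lt _⟩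
      intro h
      rw [Prod.mk.injEq, ZMod.val_eq_zero, ZMod.val_eq_zero] at h
      exact hl' (Prod.ext h.1 h.2)
    have hc := hconv _ hmem
    simp only at hc ⊢
    -- transport the sum
    have hsum : ∑ k ∈ (Finset.univ.erase (0 : ZMod d × ZMod d)).erase (l1, l2),
        chiT hτ (k.2 * (l1 - k.1)) * (Gper d τ F k.1 k.2 * Gper d τ F (l1 - k.1) (l2 - k.2))
        = ∑ k ∈ ((range d ×ˢ range d).erase (0, 0)).erase (l1.val, l2.val),
          (-1) ^ ((l1.val : ℤ) + l2.val) * τ ^ ((l1.val : ℤ) * l2.val) *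
          (τ ^ (-((k.1 : ℤ) * l2.val - k.2 * l1.val)) *
            (F k.1 k.2 * F (l1.val - k.1) (l2.val - k.2))) := by
      refine Finset.sum_bij (fun k _ => (k.1.val, k.2.val)) ?_ ?_ ?_ ?_
      · rintro ⟨k1, k2⟩ hk
        have hk1 : (k1, k2) ≠ (l1, l2) := (mem_erase.1 hk).1
        have hk0 : (k1, k2) ≠ (0, 0) := (mem_erase.1 (mem_erase.1 hk).2).1
        rw [mem_erase, mem_erase, mem_product, mem_range, mem_range]
        refine ⟨?_, ?_, ZMod.val_lt _, ZMod.val_lt _⟩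
        · intro h
          rw [Prod.mk.injEq] at h
          exact hk1 (Prod.ext (ZMod.val_injective d h.1) (ZMod.val_injective d h.2))
        · intro h
          rw [Prod.mk.injEq, ZMod.val_eq_zero, ZMod.val_eq_zero] at h
          exact hk0 (Prod.ext h.1 h.2)
      · rintro ⟨k1, k2⟩ _ ⟨m1, m2⟩ _ h
        rw [Prod.mk.injEq] at h
        exact Prod.ext (ZMod.val_injective d h.1) (ZMod.val_injective d h.2)
      · rintro ⟨m1, m2⟩ hm'
        rw [mem_erase, mem_erase, mem_product, mem_range, mem_range] at hm'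
        obtain ⟨hne, hn0, hm1, hm2⟩ := hm'
        refine ⟨((m1 : ZMod d), (m2 : ZMod d)), ?_, ?_⟩
        · rw [mem_erase, mem_erase]
          refine ⟨?_, ?_, mem_univ _⟩
          · intro h
            apply hne
            rw [Prod.mk.injEq] at h
            rw [← h.1, ← h.2, ZMod.val_cast_of_lt hm1, ZMod.val_cast_of_lt hm2]
          · intro h
            apply hn0
            have h1 : (m1 : ZMod d) = 0 := congrArg Prod.fst h
            have h2 : (m2 : ZMod d) = 0 := congrArg Prod.snd h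
            have h1' := ZMod.val_cast_of_lt hm1
            have h2' := ZMod.val_cast_of_lt hm2
            rw [h1, ZMod.val_zero] at h1'
            rw [h2, ZMod.val_zero] at h2'
            exact Prod.ext h1'.symm h2'.symm
        · simp only
          rw [ZMod.val_cast_of_lt hm1, ZMod.val_cast_of_lt hm2]
      · rintro ⟨k1, k2⟩ hk
        have hk1 : (k1, k2) ≠ (l1, l2) := (mem_erase.1 hk).1
        have hk0 : (k1, k2) ≠ (0, 0) := (mem_erase.1 (mem_erase.1 hk).2).1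
        simp only
        have hlk : ¬ ((d : ℤ) ∣ (l1.val : ℤ) - k1.val ∧ (d : ℤ) ∣ (l2.val : ℤ) - k2.val) := by
          rintro ⟨h1, h2⟩
          rw [← ZMod.intCast_zmod_eq_zero_iff_dvd] at h1 h2
          push_cast at h1 h2
          rw [ZMod.natCast_zmod_val, ZMod.natCast_zmod_val, sub_eq_zero] at h1 h2
          exact hk1 (Prod.ext h1.symm h2.symm)
        have hG : Gper d τ F (l1 - k1) (l2 - k2)
            = (-1) ^ (((l1.val : ℤ) - k1.val) + ((l2.val : ℤ) - k2.val)) *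
              τ ^ (((l1.val : ℤ) - k1.val) * ((l2.val : ℤ) - k2.val)) *
              F ((l1.val : ℤ) - k1.val) ((l2.val : ℤ) - k2.val) := by
          rw [← Gper_cast hτ hqp _ _ hlk]
          simp
        have hch : chiT hτ (k2 * (l1 - k1)) = τ ^ (2 * ((k2.val : ℤ) * ((l1.val : ℤ) - k1.val))) := by
          rw [← chiT_intCast hτ]
          simp
        rw [hG, hch, Gper]
        have s1 : (-1 : ℂ) ^ ((k1.val : ℤ) + k2.val) *
            (-1) ^ (((l1.val : ℤ) - k1.val) + ((l2.val : ℤ) - k2.val))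
            = (-1) ^ ((l1.val : ℤ) + l2.val) := by
          rw [← zpow_add₀ hm]
          congr 1
          ring
        have s2 : τ ^ (2 * ((k2.val : ℤ) * ((l1.val : ℤ) - k1.val))) *
            (τ ^ ((k1.val : ℤ) * k2.val) * τ ^ (((l1.val : ℤ) - k1.val) * ((l2.val : ℤ) - k2.val)))
            = τ ^ ((l1.val : ℤ) * l2.val) * τ ^ (-((k1.val : ℤ) * l2.val - k2.val * l1.val)) := by
          rw [← zpow_add₀ hτ0, ← zpow_add₀ hτ0, ← zpow_add₀ hτ0]
          congr 1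
          ring
        calc τ ^ (2 * ((k2.val : ℤ) * ((l1.val : ℤ) - k1.val))) *
              ((-1) ^ ((k1.val : ℤ) + k2.val) * τ ^ ((k1.val : ℤ) * k2.val) * F k1.val k2.val *
                ((-1) ^ (((l1.val : ℤ) - k1.val) + ((l2.val : ℤ) - k2.val)) *
                  τ ^ (((l1.val : ℤ) - k1.val) * ((l2.val : ℤ) - k2.val)) *
                  F ((l1.val : ℤ) - k1.val) ((l2.val : ℤ) - k2.val)))
            = ((-1 : ℂ) ^ ((k1.val : ℤ) + k2.val) *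
                (-1) ^ (((l1.val : ℤ) - k1.val) + ((l2.val : ℤ) - k2.val))) *
              (τ ^ (2 * ((k2.val : ℤ) * ((l1.val : ℤ) - k1.val))) *
                (τ ^ ((k1.val : ℤ) * k2.val) *
                  τ ^ (((l1.val : ℤ) - k1.val) * ((l2.val : ℤ) - k2.val)))) *
              (F k1.val k2.val * F ((l1.val : ℤ) - k1.val) ((l2.val : ℤ) - k2.val)) := by ring
          _ = _ := by rw [s1, s2]; ring
    rw [hsum, ← Finset.mul_sum, hc, Gper]
    ring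

/-- **Layer 3, full form.**  The same with the value `e0` at `0` and the complete sum. -/
theorem SIC_of_F_full {τ : ℂ} (hτ : IsPrimitiveRoot τ (2 * d)) (s : ℝ) (hs : s ^ 2 = d + 1)
    (F : ℤ → ℤ → ℂ) (hqp : QP d F)
    (habs : ∀ k1 k2 : ℤ, ¬ ((d : ℤ) ∣ k1 ∧ (d : ℤ) ∣ k2) → ‖F k1 k2‖ = 1)
    (hinv : ∀ k1 k2 : ℤ, ¬ ((d : ℤ) ∣ k1 ∧ (d : ℤ) ∣ k2) → F k1 k2 * F (-k1) (-k2) = 1)
    (κ : ℂ) (h0 : 2 * F 0 0 = ((d : ℂ) - 2) * s + κ)
    (hconv : ∀ l ∈ (range d ×ˢ range d).erase (0, 0),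
      ∑ k ∈ range d ×ˢ range d,
        τ ^ (-((k.1 : ℤ) * l.2 - k.2 * l.1)) * (F k.1 k.2 * F (l.1 - k.1) (l.2 - k.2))
      = κ * F l.1 l.2) : SIC d := by
  classical
  have hd : 0 < d := Nat.pos_of_ne_zero (NeZero.ne d)
  refine SIC_of_F hτ s hs F hqp habs hinv fun l hl => ?_
  have h := hconv l hl
  have h0m : ((0, 0) : ℕ × ℕ) ∈ range d ×ˢ range d := by
    rw [mem_product, mem_range]
    exact ⟨hd, hd⟩
  rw [← Finset.add_sum_erase _ _ h0m, ← Finset.add_sum_erase _ _ hl] at h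
  simp only [Nat.cast_zero, sub_zero, zero_mul, neg_zero, zpow_zero, one_mul, sub_self] at h
  have e : τ ^ (-((l.1 : ℤ) * l.2 - l.2 * l.1)) = 1 := by
    have : -((l.1 : ℤ) * l.2 - l.2 * l.1) = 0 := by ring
    rw [this, zpow_zero]
  rw [e] at h
  linear_combination h - F l.1 l.2 * h0

end

end Pool.Agent.MP_d0f9e0_co.FA45
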