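import Mathlib

/-!
# Final assembly for S11585, layer 1: a Hermitian idempotent of trace one is `ψ ψ*`
-/

set_option autoImplicit false

namespace Pool.Agent.MP_d0f9e0_co.FA45

open Matrix
open scoped ComplexOrder

/-- A Hermitian idempotent of trace one is `ψ ψ*` with `ψ` a unit vector. -/
theorem exists_rank_one {κ : Type*} [Fintype κ] [DecidableEq κ] (P : Matrix κ κ ℂ)
    (hH : Pᴴ = P) (hI : P * P = P) (hT : P.trace = 1) :
    ∃ ψ : κ → ℂ, (∑ k, ‖ψ k‖ ^ 2 = 1) ∧ ∀ j m, P j m = ψ j * star (ψ m) := by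
  classical
  -- some column is nonzero
  have hP0 : P ≠ 0 := by
    intro h
    rw [h, Matrix.trace_zero] at hT
    exact zero_ne_one hT
  obtain ⟨j0, m0, hjm⟩ : ∃ j m, P j m ≠ 0 := by
    by_contra h
    push Not at h
    exact hP0 (Matrix.ext h)
  set w : κ → ℂ := fun j => P j m0 with hw
  have hPw : P.mulVec w = w := by
    funext j
    have := congrFun (congrFun hI j) m0
    rw [Matrix.mul_apply] at this
    exact this
  set N : ℝ := ∑ k, ‖w k‖ ^ 2 with hN
  have hNpos : 0 < N := by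
    refine Finset.sum_pos' (fun i _ => by positivity) ⟨j0, Finset.mem_univ _, ?_⟩
    have : 0 < ‖w j0‖ := norm_pos_iff.2 hjm
    positivity
  set r : ℝ := (Real.sqrt N)⁻¹ with hr
  have hr2 : r ^ 2 * N = 1 := by
    rw [hr, inv_pow, Real.sq_sqrt hNpos.le, inv_mul_cancel₀ hNpos.ne']
  set ψ : κ → ℂ := fun k => (r : ℂ) * w k with hψ
  have hψn : ∑ k, ‖ψ k‖ ^ 2 = 1 := by
    have : ∀ k, ‖ψ k‖ ^ 2 = r ^ 2 * ‖w k‖ ^ 2 := by
      intro k
      rw [hψ]
      simp only [norm_mul, mul_pow, Complex.norm_real, Real.norm_eq_abs, sq_abs]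
    simp_rw [this]
    rw [← Finset.mul_sum]
    exact hr2
  have hPψ : P.mulVec ψ = ψ := by
    have : ψ = (r : ℂ) • w := rfl
    rw [this, Matrix.mulVec_smul, hPw]
  have hψd : star ψ ⬝ᵥ ψ = 1 := by
    have h : star ψ ⬝ᵥ ψ = ((∑ i, ‖ψ i‖ ^ 2 : ℝ) : ℂ) := by
      simp only [dotProduct, Pi.star_apply, RCLike.star_def]
      push_cast
      refine Finset.sum_congr rfl fun i _ => ?_
      rw [Complex.conj_mul']
    rw [h, hψn, Complex.ofReal_one]
  set Q : Matrix κ κ ℂ := vecMulVec ψ (star ψ) with hQ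
  have hQH : Qᴴ = Q := by
    rw [hQ, Matrix.conjTranspose_vecMulVec, star_star]
  have hPQ : P * Q = Q := by
    rw [hQ, Matrix.mul_vecMulVec, hPψ]
  have hQP : Q * P = Q := by
    have := congrArg Matrix.conjTranspose hPQ
    rw [Matrix.conjTranspose_mul, hQH, hH] at this
    exact this
  have hQQ : Q * Q = Q := by
    rw [hQ, Matrix.vecMulVec_mul_vecMulVec, hψd, one_smul]
  have hQt : Q.trace = 1 := by
    rw [hQ, Matrix.trace_vecMulVec, dotProduct_comm, hψd]
  have hR : (P - Q)ᴴ * (P - Q) = P - Q := by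
    rw [Matrix.conjTranspose_sub, hH, hQH, Matrix.mul_sub, Matrix.sub_mul, Matrix.sub_mul, hI, hPQ,
      hQP, hQQ]
    abel
  have hRt : ((P - Q)ᴴ * (P - Q)).trace = 0 := by
    rw [hR, Matrix.trace_sub, hT, hQt, sub_self]
  have hR0 : P - Q = 0 := Matrix.trace_conjTranspose_mul_self_eq_zero_iff.1 hRt
  refine ⟨ψ, hψn, fun j m => ?_⟩
  rw [sub_eq_zero.1 hR0, hQ, Matrix.vecMulVec_apply]
  rfl

end Pool.Agent.MP_d0f9e0_co.FA45
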