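import Pool.Agent.Lib.MP_d0f9e0_co.FA45.Vec
import Pool.Agent.Lib.MP_d0f9e0_co.FA45.Proj

/-!
# Final assembly for S11585, layer 2: from the twisted convolution system on `(ℤ/d)²` to a SIC
-/

set_option autoImplicit false

namespace Pool.Agent.MP_d0f9e0_co.FA45

open Matrix Finset

section
variable {d : ℕ} [NeZero d] (χ : AddChar (ZMod d) ℂ)

/-- the projection `-(1/(d s)) ∑ G(k) X^{k₁} Z^{k₂}` -/
noncomputable def PiG (s : ℝ) (G : ZMod d → ZMod d → ℂ) : Matrix (ZMod d) (ZMod d) ℂ :=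
  Matrix.of fun j m => -(1 / ((d : ℂ) * (s : ℂ))) * ∑ b, G (j - m) b * χ (b * m)

theorem PiG_apply (s : ℝ) (G : ZMod d → ZMod d → ℂ) (j m : ZMod d) :
    PiG χ s G j m = -(1 / ((d : ℂ) * (s : ℂ))) * ∑ b, G (j - m) b * χ (b * m) := rfl

theorem char_sum (hχ : χ.IsPrimitive) (a : ZMod d) :
    ∑ x, χ (a * x) = if a = 0 then (d : ℂ) else 0 := by
  classical
  have h := AddChar.sum_mulShift a hχ
  rw [ZMod.card] at h
  have e : ((if a = 0 then d else 0 : ℕ) : ℂ) = if a = 0 then (d : ℂ) else 0 := by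
    split_ifs <;> simp
  rw [← e, ← h]
  exact Finset.sum_congr rfl fun x _ => by rw [mul_comm]

theorem hermitian_PiG (s : ℝ) (G : ZMod d → ZMod d → ℂ)
    (hc : ∀ a b, star (G a b) = G (-a) (-b) * χ (-(a * b))) : (PiG χ s G)ᴴ = PiG χ s G := by
  classical
  have hχs : ∀ x : ZMod d, star (χ x) = χ (-x) := by
    intro x
    rw [AddChar.map_neg_eq_conj]
    rfl
  ext j m
  rw [Matrix.conjTranspose_apply, PiG_apply, PiG_apply, star_mul', star_sum]
  have e1 : star (-(1 / ((d : ℂ) * (s : ℂ)))) = -(1 / ((d : ℂ) * (s : ℂ))) := by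
    simp only [star_neg, RCLike.star_def, map_div₀, map_one, map_mul, map_natCast,
      Complex.conj_ofReal]
  rw [e1]
  congr 1
  rw [← Equiv.sum_comp (Equiv.neg (ZMod d))]
  refine Finset.sum_congr rfl fun b _ => ?_
  rw [Equiv.neg_apply, star_mul', hc, hχs, neg_sub, neg_neg]
  rw [mul_assoc, ← AddChar.map_add_eq_mul]
  congr 2
  ring

theorem idem_PiG (s : ℝ) (hs : s ≠ 0) (G : ZMod d → ZMod d → ℂ)
    (hconv : ∀ l1 l2, ∑ k1, ∑ k2, χ (k2 * (l1 - k1)) * (G k1 k2 * G (l1 - k1) (l2 - k2))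
      = -((d : ℂ) * (s : ℂ)) * G l1 l2) : PiG χ s G * PiG χ s G = PiG χ s G := by
  classical
  have hd : (d : ℂ) ≠ 0 := by exact_mod_cast NeZero.ne d
  have hsC : (s : ℂ) ≠ 0 := by exact_mod_cast hs
  ext j n
  rw [Matrix.mul_apply]
  simp only [PiG_apply]
  -- ∑_m (c ∑_b G(j-m,b) χ(bm)) (c ∑_b' G(m-n,b') χ(b' n))
  have key : ∑ m, (∑ b, G (j - m) b * χ (b * m)) * (∑ b, G (m - n) b * χ (b * n))
      = -((d : ℂ) * (s : ℂ)) * ∑ b, G (j - n) b * χ (b * n) := by
    calc ∑ m, (∑ b, G (j - m) b * χ (b * m)) * (∑ b, G (m - n) b * χ (b * n))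
        = ∑ m, ∑ b, ∑ b', G (j - m) b * χ (b * m) * (G (m - n) b' * χ (b' * n)) := by
          refine Finset.sum_congr rfl fun m _ => ?_
          rw [Finset.sum_mul_sum]
      _ = ∑ m, ∑ b, ∑ l, χ (l * n) * (χ (b * (m - n)) * (G (j - m) b * G (m - n) (l - b))) := by
          refine Finset.sum_congr rfl fun m _ => Finset.sum_congr rfl fun b _ => ?_
          rw [← Equiv.sum_comp (Equiv.subRight b)
            (fun b' => G (j - m) b * χ (b * m) * (G (m - n) b' * χ (b' * n)))]
          refine Finset.sum_congr rfl fun l _ => ?_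
          rw [Equiv.subRight_apply]
          have e : χ (b * m) * χ ((l - b) * n) = χ (l * n) * χ (b * (m - n)) := by
            rw [← AddChar.map_add_eq_mul, ← AddChar.map_add_eq_mul]
            congr 1
            ring
          calc G (j - m) b * χ (b * m) * (G (m - n) (l - b) * χ ((l - b) * n))
              = (χ (b * m) * χ ((l - b) * n)) * (G (j - m) b * G (m - n) (l - b)) := by ring
            _ = _ := by rw [e]; ring
      _ = ∑ l, χ (l * n) * ∑ k1, ∑ k2, χ (k2 * ((j - n) - k1)) *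
            (G k1 k2 * G ((j - n) - k1) (l - k2)) := by
          rw [← Equiv.sum_comp (Equiv.subLeft j)]
          have : ∀ k1 : ZMod d, ∀ b l : ZMod d,
              χ (l * n) * (χ (b * ((Equiv.subLeft j) k1 - n)) *
                (G (j - (Equiv.subLeft j) k1) b * G ((Equiv.subLeft j) k1 - n) (l - b)))
              = χ (l * n) * (χ (b * ((j - n) - k1)) * (G k1 b * G ((j - n) - k1) (l - b))) := by
            intro k1 b l
            rw [Equiv.subLeft_apply]
            have e1 : j - k1 - n = j - n - k1 := by ring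
            have e2 : j - (j - k1) = k1 := by ring
            rw [e1, e2]
          simp only [this]
          have h2 : ∀ k1 : ZMod d, (∑ b : ZMod d, ∑ l : ZMod d,
              χ (l * n) * (χ (b * ((j - n) - k1)) * (G k1 b * G ((j - n) - k1) (l - b))))
              = ∑ l, ∑ b, χ (l * n) * (χ (b * ((j - n) - k1)) * (G k1 b * G ((j - n) - k1) (l - b)))
            := fun k1 => Finset.sum_comm
          simp only [h2]
          rw [Finset.sum_comm]
          refine Finset.sum_congr rfl fun l _ => ?_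
          rw [Finset.mul_sum]
          refine Finset.sum_congr rfl fun k1 _ => ?_
          rw [Finset.mul_sum]
      _ = ∑ l, χ (l * n) * (-((d : ℂ) * (s : ℂ)) * G (j - n) l) := by
          refine Finset.sum_congr rfl fun l _ => ?_
          rw [hconv]
      _ = _ := by
          rw [Finset.mul_sum]
          refine Finset.sum_congr rfl fun l _ => ?_
          ring
  calc ∑ m, -(1 / ((d : ℂ) * (s : ℂ))) * (∑ b, G (j - m) b * χ (b * m)) *
        (-(1 / ((d : ℂ) * (s : ℂ))) * ∑ b, G (m - n) b * χ (b * n))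
      = (1 / ((d : ℂ) * (s : ℂ))) ^ 2 *
        ∑ m, (∑ b, G (j - m) b * χ (b * m)) * (∑ b, G (m - n) b * χ (b * n)) := by
          rw [Finset.mul_sum]
          refine Finset.sum_congr rfl fun m _ => ?_
          ring
    _ = _ := by
          rw [key]
          field_simp

theorem trace_PiG (hχ : χ.IsPrimitive) (s : ℝ) (hs : s ≠ 0) (G : ZMod d → ZMod d → ℂ)
    (h0 : G 0 0 = -(s : ℂ)) : (PiG χ s G).trace = 1 := by
  classical
  have hd : (d : ℂ) ≠ 0 := by exact_mod_cast NeZero.ne d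
  have hsC : (s : ℂ) ≠ 0 := by exact_mod_cast hs
  rw [Matrix.trace]
  simp only [Matrix.diag_apply, PiG_apply, sub_self]
  rw [← Finset.mul_sum, Finset.sum_comm]
  have : ∀ b : ZMod d, ∑ m, G 0 b * χ (b * m) = if b = 0 then G 0 0 * d else 0 := by
    intro b
    rw [← Finset.mul_sum, char_sum χ hχ]
    by_cases hb : b = 0
    · rw [hb]; simp
    · simp [hb]
  simp only [this, Finset.sum_ite_eq', Finset.mem_univ, if_true]
  rw [h0]
  field_simp

/-- **Layer 2.**  The twisted convolution system with unimodular values gives a SIC. -/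
theorem SIC_of_G (hχ : χ.IsPrimitive) (s : ℝ) (hs : s ^ 2 = d + 1) (G : ZMod d → ZMod d → ℂ)
    (h0 : G 0 0 = -(s : ℂ)) (habs : ∀ a b, (a, b) ≠ (0, 0) → ‖G a b‖ = 1)
    (hinv : ∀ a b, (a, b) ≠ (0, 0) → G a b * G (-a) (-b) = χ (a * b))
    (hconv : ∀ l1 l2, ∑ k1, ∑ k2, χ (k2 * (l1 - k1)) * (G k1 k2 * G (l1 - k1) (l2 - k2))
      = -((d : ℂ) * (s : ℂ)) * G l1 l2) : SIC d := by
  classical
  have hd : (d : ℂ) ≠ 0 := by exact_mod_cast NeZero.ne d
  have hs0 : s ≠ 0 := by
    intro h
    rw [h] at hs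
    have : (0 : ℝ) < (d : ℝ) + 1 := by positivity
    norm_num at hs
    linarith
  have hsC : (s : ℂ) ≠ 0 := by exact_mod_cast hs0
  have hc : ∀ a b, star (G a b) = G (-a) (-b) * χ (-(a * b)) := by
    intro a b
    by_cases hab : (a, b) = (0, 0)
    · rw [Prod.mk.injEq] at hab
      rw [hab.1, hab.2]
      simp only [neg_zero, mul_zero, AddChar.map_zero_eq_one, mul_one, h0, star_neg,
        RCLike.star_def, Complex.conj_ofReal]
    · have h1 := habs a b hab
      have h2 := hinv a b hab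
      have hG : G a b ≠ 0 := by
        intro h
        rw [h, norm_zero] at h1
        exact zero_ne_one h1
      have h3 : G a b * star (G a b) = 1 := by
        rw [RCLike.star_def, Complex.mul_conj, Complex.normSq_eq_norm_sq, h1]
        norm_num
      have h4 : G a b * (G (-a) (-b) * χ (-(a * b))) = 1 := by
        rw [← mul_assoc, h2, ← AddChar.map_add_eq_mul, add_neg_cancel, AddChar.map_zero_eq_one]
      exact mul_left_cancel₀ hG (h3.trans h4.symm)
  obtain ⟨ψ, hψ1, hψ2⟩ := exists_rank_one (PiG χ s G) (hermitian_PiG χ s G hc)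
    (idem_PiG χ s hs0 G hconv) (trace_PiG χ hχ s hs0 G h0)
  refine SIC_of_fiducial χ ψ hψ1 fun a b hab => ?_
  have e1 : ∑ k, star (ψ k) * ψ (k + a) * χ (b * k) = -(1 / (s : ℂ)) * G a (-b) := by
    calc ∑ k, star (ψ k) * ψ (k + a) * χ (b * k)
        = ∑ k, PiG χ s G (k + a) k * χ (b * k) := by
          refine Finset.sum_congr rfl fun k _ => ?_
          rw [hψ2]
          ring
      _ = ∑ k, -(1 / ((d : ℂ) * (s : ℂ))) * ∑ b', G a b' * χ ((b' + b) * k) := by
          refine Finset.sum_congr rfl fun k _ => ?_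
          rw [PiG_apply, add_sub_cancel_left, mul_assoc, Finset.sum_mul]
          congr 1
          refine Finset.sum_congr rfl fun b' _ => ?_
          rw [mul_assoc, ← AddChar.map_add_eq_mul, add_mul]
      _ = -(1 / ((d : ℂ) * (s : ℂ))) * ∑ b', ∑ k, G a b' * χ ((b' + b) * k) := by
          rw [← Finset.mul_sum, Finset.sum_comm]
      _ = -(1 / ((d : ℂ) * (s : ℂ))) * ∑ b', (if b' = -b then G a (-b) * d else 0) := by
          congr 1
          refine Finset.sum_congr rfl fun b' _ => ?_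
          rw [← Finset.mul_sum, char_sum χ hχ]
          by_cases hb : b' = -b
          · rw [hb]; simp
          · have : b' + b ≠ 0 := fun h => hb (eq_neg_of_add_eq_zero_left h)
            simp [hb, this]
      _ = _ := by
          simp only [Finset.sum_ite_eq', Finset.mem_univ, if_true]
          field_simp
  rw [e1, norm_mul, norm_neg, habs a (-b), mul_one, norm_div, norm_one, div_pow, one_pow,
    Complex.norm_real, Real.norm_eq_abs, sq_abs, hs]
  intro h
  apply hab
  rw [Prod.mk.injEq] at h ⊢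
  exact ⟨h.1, neg_eq_zero.1 h.2⟩

/-- **Layer 2, second form.**  Only the convolution equations at `l ≠ 0` over `k ≠ 0, l`. -/
theorem SIC_of_G' (hχ : χ.IsPrimitive) (s : ℝ) (hs : s ^ 2 = d + 1) (G : ZMod d → ZMod d → ℂ)
    (habs : ∀ a b, (a, b) ≠ (0, 0) → ‖G a b‖ = 1)
    (hinv : ∀ a b, (a, b) ≠ (0, 0) → G a b * G (-a) (-b) = χ (a * b))
    (hconv : ∀ l : ZMod d × ZMod d, l ≠ 0 →
      ∑ k ∈ (Finset.univ.erase (0 : ZMod d × ZMod d)).erase l,
        χ (k.2 * (l.1 - k.1)) * (G k.1 k.2 * G (l.1 - k.1) (l.2 - k.2))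
      = -(((d : ℂ) - 2) * (s : ℂ)) * G l.1 l.2) : SIC d := by
  classical
  set H : ZMod d → ZMod d → ℂ := fun a b => if (a, b) = (0, 0) then -(s : ℂ) else G a b with hH
  have hH1 : ∀ a b, (a, b) ≠ (0, 0) → H a b = G a b := fun a b h => by
    rw [hH]
    exact if_neg h
  have hH0 : H 0 0 = -(s : ℂ) := by
    rw [hH]
    exact if_pos rfl
  have hneg : ∀ a b : ZMod d, (a, b) ≠ (0, 0) → (-a, -b) ≠ (0, 0) := by
    intro a b h h'
    apply h
    rw [Prod.mk.injEq] at h' ⊢
    exact ⟨neg_eq_zero.1 h'.1, neg_eq_zero.1 h'.2⟩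
  refine SIC_of_G χ hχ s hs H hH0 (fun a b h => ?_) (fun a b h => ?_) ?_
  · rw [hH1 a b h, habs a b h]
  · rw [hH1 a b h, hH1 _ _ (hneg a b h), hinv a b h]
  · intro l1 l2
    have hprod : ∑ k1, ∑ k2, χ (k2 * (l1 - k1)) * (H k1 k2 * H (l1 - k1) (l2 - k2))
        = ∑ k : ZMod d × ZMod d, χ (k.2 * (l1 - k.1)) * (H k.1 k.2 * H (l1 - k.1) (l2 - k.2)) := by
      rw [Fintype.sum_prod_type]
    rw [hprod]
    rw [← Finset.add_sum_erase _ _ (Finset.mem_univ (0 : ZMod d × ZMod d))]
    have hsC2 : (s : ℂ) ^ 2 = (d : ℂ) + 1 := by exact_mod_cast hs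
    by_cases hl : ((l1, l2) : ZMod d × ZMod d) = 0
    · have hl1 : l1 = 0 := congrArg Prod.fst hl
      have hl2 : l2 = 0 := congrArg Prod.snd hl
      subst hl1 hl2
      have hterm : ∀ k ∈ Finset.univ.erase (0 : ZMod d × ZMod d),
          χ (k.2 * (0 - k.1)) * (H k.1 k.2 * H (0 - k.1) (0 - k.2)) = 1 := by
        intro k hk
        have hk0 : k ≠ 0 := (Finset.mem_erase.1 hk).1
        have hk' : (k.1, k.2) ≠ (0, 0) := hk0
        rw [zero_sub, zero_sub, hH1 _ _ hk', hH1 _ _ (hneg _ _ hk'), hinv _ _ hk',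
          ← AddChar.map_add_eq_mul]
        have : k.2 * -k.1 + k.1 * k.2 = 0 := by ring
        rw [this, AddChar.map_zero_eq_one]
      rw [Finset.sum_congr rfl hterm, Finset.sum_const, Finset.card_erase_of_mem (Finset.mem_univ _),
        Finset.card_univ, Fintype.card_prod, ZMod.card]
      have hd1 : 1 ≤ d * d := Nat.one_le_iff_ne_zero.2 (mul_ne_zero (NeZero.ne d) (NeZero.ne d))
      rw [nsmul_eq_mul, Nat.cast_sub hd1]
      simp only [Prod.fst_zero, Prod.snd_zero, sub_zero, zero_mul, AddChar.map_zero_eq_one, hH0]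
      push_cast
      linear_combination (1 - (d : ℂ)) * hsC2
    · have hl' : (l1, l2) ≠ (0, 0) := hl
      have hmem : ((l1, l2) : ZMod d × ZMod d) ∈ Finset.univ.erase (0 : ZMod d × ZMod d) :=
        Finset.mem_erase.2 ⟨hl, Finset.mem_univ _⟩
      rw [← Finset.add_sum_erase _ _ hmem]
      have hterm : ∀ k ∈ (Finset.univ.erase (0 : ZMod d × ZMod d)).erase (l1, l2),
          χ (k.2 * (l1 - k.1)) * (H k.1 k.2 * H (l1 - k.1) (l2 - k.2))
          = χ (k.2 * (l1 - k.1)) * (G k.1 k.2 * G (l1 - k.1) (l2 - k.2)) := by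
        intro k hk
        have hk1 : k ≠ (l1, l2) := (Finset.mem_erase.1 hk).1
        have hk0 : k ≠ 0 := (Finset.mem_erase.1 (Finset.mem_erase.1 hk).2).1
        have hk' : (k.1, k.2) ≠ (0, 0) := hk0
        have hlk : (l1 - k.1, l2 - k.2) ≠ (0, 0) := by
          intro h
          rw [Prod.mk.injEq, sub_eq_zero, sub_eq_zero] at h
          exact hk1 (Prod.ext h.1.symm h.2.symm)
        rw [hH1 _ _ hk', hH1 _ _ hlk]
      rw [Finset.sum_congr rfl hterm]
      have hc := hconv (l1, l2) hl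
      simp only at hc
      rw [hc]
      simp only [Prod.fst_zero, Prod.snd_zero, sub_zero, zero_mul, AddChar.map_zero_eq_one, hH0,
        sub_self, mul_zero, hH1 l1 l2 hl']
      ring

end

end Pool.Agent.MP_d0f9e0_co.FA45
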