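import Pool.Agent.Lib.MP_d0f9e0_co.FA45.FromG

/-!
# Final assembly for S11585: the dimensions 1, 2, 3
-/

set_option autoImplicit false

namespace Pool.Agent.MP_d0f9e0_co.FA45

open Matrix Finset

theorem SIC_one : SIC 1 := by
  refine SIC_of_index (d := 1) (ι := Fin 1) (κ := Fin 1) (by simp) (by simp)
    (fun _ => EuclideanSpace.single 0 1) (fun _ => ?_) (fun i j hij => ?_)
  · simp
  · exact absurd (Subsingleton.elim i j) hij

theorem SIC_two : SIC 2 := by
  classical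
  have hχ : (ZMod.stdAddChar (N := 2)).IsPrimitive := ZMod.isPrimitive_stdAddChar 2
  set χ : AddChar (ZMod 2) ℂ := ZMod.stdAddChar (N := 2) with hχd
  have hχ1 : χ 1 = -1 := by
    have h := char_sum χ hχ 1
    have h2 : ∑ x : ZMod 2, χ (1 * x) = χ (1 * 0) + χ (1 * 1) := Fin.sum_univ_two _
    rw [h2, if_neg (by decide), mul_zero, mul_one, AddChar.map_zero_eq_one] at h
    linear_combination h
  have hχ0 : χ 0 = 1 := AddChar.map_zero_eq_one _
  have hs : (Real.sqrt 3) ^ 2 = ((2 : ℕ) : ℝ) + 1 := by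
    rw [Real.sq_sqrt (by norm_num)]
    norm_num
  obtain ⟨G, hG10, hG01, hG11⟩ : ∃ G : ZMod 2 → ZMod 2 → ℂ, G 1 0 = 1 ∧ G 0 1 = 1 ∧
      G 1 1 = Complex.I := by
    refine ⟨fun a b => if a = 1 ∧ b = 1 then Complex.I else 1, ?_, ?_, ?_⟩
    · exact if_neg (by decide)
    · exact if_neg (by decide)
    · exact if_pos (by decide)
  have hcase : ∀ l : ZMod 2 × ZMod 2, l ≠ 0 → l = (1, 0) ∨ l = (0, 1) ∨ l = (1, 1) := by
    decide
  have hneg : ∀ x : ZMod 2, -x = x := by decide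
  refine SIC_of_G' χ hχ (Real.sqrt 3) hs G
    (fun a b hab => ?_) (fun a b hab => ?_) (fun l hl => ?_)
  · rcases hcase (a, b) hab with h | h | h <;> rw [Prod.mk.injEq] at h <;> rw [h.1, h.2]
    · rw [hG10, norm_one]
    · rw [hG01, norm_one]
    · rw [hG11, Complex.norm_I]
  · rw [hneg, hneg]
    rcases hcase (a, b) hab with h | h | h <;> rw [Prod.mk.injEq] at h <;> rw [h.1, h.2]
    · rw [hG10, mul_zero, hχ0, mul_one]
    · rw [hG01, zero_mul, hχ0, mul_one]
    · rw [hG11, mul_one, hχ1, Complex.I_mul_I]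
  · have hR : -((((2 : ℕ) : ℂ) - 2) * (Real.sqrt 3 : ℂ)) * G l.1 l.2 = 0 := by
      push_cast
      ring
    rw [hR]
    have a1 : (1 : ZMod 2) - 0 = 1 := by decide
    have a2 : (1 : ZMod 2) - 1 = 0 := by decide
    have a3 : (0 : ZMod 2) - 1 = 1 := by decide
    have a4 : (0 : ZMod 2) - 0 = 0 := by decide
    clear hneg
    rcases hcase l hl with rfl | rfl | rfl
    · have e : ((Finset.univ.erase (0 : ZMod 2 × ZMod 2)).erase (1, 0)) = {(0, 1), (1, 1)} := by
        decide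
      rw [e, Finset.sum_pair (by decide)]
      rw [a1, a2, a3, mul_one, mul_zero, hχ0, hχ1, hG01, hG11]
      ring
    · have e : ((Finset.univ.erase (0 : ZMod 2 × ZMod 2)).erase (0, 1)) = {(1, 0), (1, 1)} := by
        decide
      rw [e, Finset.sum_pair (by decide)]
      rw [a3, a1, a2, mul_one, mul_one, hχ1, hG10, hG11]
      simp only [hχ0]
      ring
    · have e : ((Finset.univ.erase (0 : ZMod 2 × ZMod 2)).erase (1, 1)) = {(1, 0), (0, 1)} := by
        decide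
      rw [e, Finset.sum_pair (by decide)]
      rw [a1, a2, mul_one, zero_mul, hχ0, hχ1, hG10, hG01]
      ring

theorem SIC_three : SIC 3 := by
  classical
  have hχ : (ZMod.stdAddChar (N := 3)).IsPrimitive := ZMod.isPrimitive_stdAddChar 3
  set χ : AddChar (ZMod 3) ℂ := ZMod.stdAddChar (N := 3) with hχd
  have hχn : ∀ x : ZMod 3, ‖χ x‖ = 1 := fun x => AddChar.norm_apply χ x
  have hχ0 : χ 0 = 1 := AddChar.map_zero_eq_one _
  have hsum : ∀ b : ZMod 3, b ≠ 0 → χ (b * 1) + χ (b * 2) = -1 := by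
    intro b hb
    have h := char_sum χ hχ b
    have h2 : ∑ x : ZMod 3, χ (b * x) = χ (b * 0) + χ (b * 1) + χ (b * 2) := Fin.sum_univ_three _
    rw [h2, if_neg hb, mul_zero, hχ0] at h
    linear_combination h
  set r : ℂ := (((Real.sqrt 2)⁻¹ : ℝ) : ℂ) with hr
  have hr2 : r * r = 1 / 2 := by
    rw [hr, ← Complex.ofReal_mul, ← mul_inv, Real.mul_self_sqrt (by norm_num)]
    push_cast
    norm_num
  have hrs : star r = r := by
    rw [hr, RCLike.star_def, Complex.conj_ofReal]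
  set ψ : ZMod 3 → ℂ := fun k => if k = 0 then 0 else if k = 1 then r else -r with hψ
  have h0 : ψ 0 = 0 := by simp [hψ]
  have h1 : ψ 1 = r := by
    rw [hψ]
    simp only
    rw [if_neg (by decide), if_pos (by decide)]
  have h2 : ψ 2 = -r := by
    rw [hψ]
    simp only
    rw [if_neg (by decide), if_neg (by decide)]
  have hrn : ‖r‖ ^ 2 = 1 / 2 := by
    rw [sq, ← norm_mul, hr2]
    norm_num
  refine SIC_of_fiducial χ ψ ?_ fun a b hab => ?_
  · have e : ∑ k : ZMod 3, ‖ψ k‖ ^ 2 = ‖ψ 0‖ ^ 2 + ‖ψ 1‖ ^ 2 + ‖ψ 2‖ ^ 2 := Fin.sum_univ_three _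
    rw [e, h0, h1, h2, norm_neg, hrn]
    norm_num
  · have e : ∑ k : ZMod 3, star (ψ k) * ψ (k + a) * χ (b * k)
        = star (ψ 0) * ψ (0 + a) * χ (b * 0) + star (ψ 1) * ψ (1 + a) * χ (b * 1)
          + star (ψ 2) * ψ (2 + a) * χ (b * 2) := Fin.sum_univ_three _
    rw [e, h0, h1, h2, star_zero, star_neg, hrs]
    have ha3 : a = 0 ∨ a = 1 ∨ a = 2 := (by decide : ∀ a : ZMod 3, a = 0 ∨ a = 1 ∨ a = 2) a
    have hhalf : ∀ z : ℂ, ‖z‖ = 1 → ‖-(1 / 2) * z‖ ^ 2 = 1 / (((3 : ℕ) : ℝ) + 1) := by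
      intro z hz
      rw [norm_mul, hz]
      norm_num
    rcases ha3 with rfl | rfl | rfl
    · have hb : b ≠ 0 := fun h => hab (by rw [h])
      have e1 : (0 : ℂ) * ψ (0 + 0) * χ (b * 0) + r * ψ (1 + 0) * χ (b * 1)
          + -r * ψ (2 + 0) * χ (b * 2) = -(1 / 2) * 1 := by
        rw [add_zero, add_zero, add_zero, h1, h2]
        linear_combination (χ (b * 1) + χ (b * 2)) * hr2 + (1 / 2) * hsum b hb
      rw [e1]
      exact hhalf 1 norm_one
    · have e1 : (0 : ℂ) * ψ (0 + 1) * χ (b * 0) + r * ψ (1 + 1) * χ (b * 1)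
          + -r * ψ (2 + 1) * χ (b * 2) = -(1 / 2) * χ (b * 1) := by
        have a1 : (1 : ZMod 3) + 1 = 2 := by decide
        have a2 : (2 : ZMod 3) + 1 = 0 := by decide
        rw [a1, a2, h0, h2]
        linear_combination (-χ (b * 1)) * hr2
      rw [e1]
      exact hhalf _ (hχn _)
    · have e1 : (0 : ℂ) * ψ (0 + 2) * χ (b * 0) + r * ψ (1 + 2) * χ (b * 1)
          + -r * ψ (2 + 2) * χ (b * 2) = -(1 / 2) * χ (b * 2) := by
        have a1 : (1 : ZMod 3) + 2 = 0 := by decide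
        have a2 : (2 : ZMod 3) + 2 = 1 := by decide
        rw [a1, a2, h0, h1]
        linear_combination (-χ (b * 2)) * hr2
      rw [e1]
      exact hhalf _ (hχn _)

end Pool.Agent.MP_d0f9e0_co.FA45
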