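import Mathlib

/-!
# Final assembly for S11585 (Zauner), layer 0: from a Weyl-Heisenberg fiducial to `d²` vectors
-/

set_option autoImplicit false

namespace Pool.Agent.MP_d0f9e0_co.FA45

/-- The conclusion of the problem in dimension `d`. -/
def SIC (d : ℕ) : Prop :=
  ∃ v : Fin (d ^ 2) → EuclideanSpace ℂ (Fin d),
    (∀ i, ‖v i‖ = 1) ∧
    (∀ i j, i ≠ j → ‖inner ℂ (v i) (v j)‖ = 1 / Real.sqrt ((d : ℝ) + 1))

/-- Reindexing. -/
theorem SIC_of_index {d : ℕ} {ι κ : Type*} [Fintype ι] [Fintype κ]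
    (hι : Fintype.card ι = d ^ 2) (hκ : Fintype.card κ = d)
    (v : ι → EuclideanSpace ℂ κ) (h1 : ∀ i, ‖v i‖ = 1)
    (h2 : ∀ i j, i ≠ j → ‖inner ℂ (v i) (v j)‖ = 1 / Real.sqrt ((d : ℝ) + 1)) : SIC d := by
  classical
  let e : Fin (d ^ 2) ≃ ι := (Fintype.equivFinOfCardEq hι).symm
  let f : κ ≃ Fin d := Fintype.equivFinOfCardEq hκ
  let L : EuclideanSpace ℂ κ ≃ₗᵢ[ℂ] EuclideanSpace ℂ (Fin d) :=
    LinearIsometryEquiv.piLpCongrLeft 2 ℂ ℂ f
  refine ⟨fun i => L (v (e i)), fun i => ?_, fun i j hij => ?_⟩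
  · rw [LinearIsometryEquiv.norm_map]
    exact h1 _
  · rw [LinearIsometryEquiv.inner_map_map]
    exact h2 _ _ (fun h => hij (e.injective h))

/-- A Weyl-Heisenberg fiducial vector gives a SIC. -/
theorem SIC_of_fiducial {d : ℕ} [NeZero d] (χ : AddChar (ZMod d) ℂ) (ψ : ZMod d → ℂ)
    (hn : ∑ k, ‖ψ k‖ ^ 2 = 1)
    (ho : ∀ a b : ZMod d, (a, b) ≠ (0, 0) →
      ‖∑ k, star (ψ k) * ψ (k + a) * χ (b * k)‖ ^ 2 = 1 / ((d : ℝ) + 1)) : SIC d := by
  classical
  have hχ : ∀ x : ZMod d, ‖χ x‖ = 1 := fun x => AddChar.norm_apply χ x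
  have hχs : ∀ x : ZMod d, star (χ x) = χ (-x) := by
    intro x
    rw [AddChar.map_neg_eq_conj]
    rfl
  refine SIC_of_index (d := d) (ι := ZMod d × ZMod d) (κ := ZMod d) ?_ (ZMod.card d)
    (fun p => WithLp.toLp 2 fun k => χ (p.2 * k) * ψ (k + p.1)) ?_ ?_
  · rw [Fintype.card_prod, ZMod.card, sq]
  · intro p
    rw [EuclideanSpace.norm_eq]
    have : ∑ k : ZMod d, ‖χ (p.2 * k) * ψ (k + p.1)‖ ^ 2 = 1 := by
      rw [← hn]
      rw [← Equiv.sum_comp (Equiv.addRight p.1) (fun k => ‖ψ k‖ ^ 2)]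
      refine Finset.sum_congr rfl fun k _ => ?_
      rw [norm_mul, hχ, one_mul, Equiv.coe_addRight]
    simp only [this, Real.sqrt_one]
  · rintro ⟨a, b⟩ ⟨a', b'⟩ hne
    have hne' : (a' - a, b' - b) ≠ (0, 0) := by
      intro h
      rw [Prod.mk.injEq, sub_eq_zero, sub_eq_zero] at h
      exact hne (by rw [h.1, h.2])
    have hov := ho (a' - a) (b' - b) hne'
    have hin : (inner ℂ (WithLp.toLp 2 fun k => χ (b * k) * ψ (k + a) : EuclideanSpace ℂ (ZMod d))
        (WithLp.toLp 2 fun k => χ (b' * k) * ψ (k + a') : EuclideanSpace ℂ (ZMod d)))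
        = χ (-((b' - b) * a)) * ∑ k, star (ψ k) * ψ (k + (a' - a)) * χ ((b' - b) * k) := by
      rw [PiLp.inner_apply]
      simp only [RCLike.inner_apply]
      rw [Finset.mul_sum, ← Equiv.sum_comp (Equiv.addRight a) (fun k => χ (-((b' - b) * a)) *
        (star (ψ k) * ψ (k + (a' - a)) * χ ((b' - b) * k)))]
      refine Finset.sum_congr rfl fun k _ => ?_
      rw [Equiv.coe_addRight]
      have e1 : (starRingEnd ℂ) (χ (b * k) * ψ (k + a)) = χ (-(b * k)) * star (ψ (k + a)) := by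
        rw [map_mul, ← hχs]
        rfl
      rw [e1]
      have e2 : k + a + (a' - a) = k + a' := by ring
      rw [e2]
      have e3 : χ (-((b' - b) * a)) * χ ((b' - b) * (k + a)) = χ (b' * k) * χ (-(b * k)) := by
        rw [← AddChar.map_add_eq_mul, ← AddChar.map_add_eq_mul]
        congr 1
        ring
      calc χ (b' * k) * ψ (k + a') * (χ (-(b * k)) * star (ψ (k + a)))
          = (χ (b' * k) * χ (-(b * k))) * (star (ψ (k + a)) * ψ (k + a')) := by ring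
        _ = (χ (-((b' - b) * a)) * χ ((b' - b) * (k + a))) * (star (ψ (k + a)) * ψ (k + a')) := by
            rw [e3]
        _ = _ := by ring
    show ‖(inner ℂ (WithLp.toLp 2 fun k => χ (b * k) * ψ (k + a) : EuclideanSpace ℂ (ZMod d))
        (WithLp.toLp 2 fun k => χ (b' * k) * ψ (k + a') : EuclideanSpace ℂ (ZMod d)))‖ = _
    rw [hin, norm_mul, hχ, one_mul]
    have hpos : (0 : ℝ) < (d : ℝ) + 1 := by positivity
    rw [← Real.sqrt_sq (norm_nonneg _), hov, Real.sqrt_div zero_le_one, Real.sqrt_one]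

end Pool.Agent.MP_d0f9e0_co.FA45
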